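import Mathlib

/-!
The prime-gap up/down score: definitions used in the statement of the result.
-/

namespace Pool.Agent.PrimeScore

/-- The `i`-th prime, indexed from zero: `p 0 = 2`, `p 1 = 3`, `p 2 = 5`, ... -/
noncomputable def p (i : ℕ) : ℕ := Nat.nth Nat.Prime i

/-- The `n`-th prime gap `g n = p n - p (n - 1)` (used for `n ≥ 1`), as an integer. -/
noncomputable def g (n : ℕ) : ℤ := (p n : ℤ) - (p (n - 1) : ℤ)

/-- The score `a n`, the sum of `sign (g k - g (k - 1))` for `2 ≤ k ≤ n`
(so `a n = 0` for `n ≤ 1`). -/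
noncomputable def a (n : ℕ) : ℤ := ∑ k ∈ Finset.Icc 2 n, Int.sign (g k - g (k - 1))

end Pool.Agent.PrimeScore
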