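import Mathlib
import Pool.Agent.PrimeScore.Defs

/-!
Verified evaluation of the prime-gap up/down score.

`p i` is the `i`-th prime (indexed from zero), `g n = p n - p (n - 1)` and
`a n` is the sum of `sign (g k - g (k - 1))` over `2 ≤ k ≤ n`.
The functions `isP`, `nxt`, `F`, `S` are evaluated by the kernel.
-/

namespace Pool.Agent.PrimeScore

/-! ### kernel-evaluated functions -/

/-- coprimality test with `Q` (which will be a factorial). -/
def isP (Q y : Nat) : Bool := Nat.beq (Nat.gcd y Q) 1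

/-- first `y` in `y0, y0 + 2, ...` (at most `fuel` of them) passing the test, or `0`. -/
def nxt (Q : Nat) (fuel : Nat) : Nat → Nat :=
  Nat.rec (fun _ => 0) (fun _ ih y => cond (isP Q y) y (ih (Nat.add y 2))) fuel

/-- `2^32 + 1 + sign (z + x - 2 y)` -/
def code (x y z : Nat) : Nat :=
  cond (Nat.blt (Nat.add z x) (Nat.mul 2 y)) 4294967296
    (cond (Nat.beq (Nat.add z x) (Nat.mul 2 y)) 4294967297 4294967298)

def poison : Nat := 1267650600228229401496703205376

def G2 (x y z : Nat) : Nat := cond (Nat.beq z 0) poison (code x y z)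

def G1 (Q x y : Nat) : Nat := cond (Nat.beq y 0) poison (G2 x y (nxt Q 100 (Nat.add y 2)))

def F (Q x : Nat) : Nat :=
  cond (isP Q x) (G1 Q x (nxt Q 100 (Nat.add x 2))) 0

/-- sum of `F` over the `2^k` numbers `x, x+2, ...` -/
def S (Q : Nat) (k : Nat) : Nat → Nat :=
  Nat.rec (fun x => F Q x) (fun j ih x => Nat.add (ih x) (ih (Nat.add x (Nat.pow 2 (Nat.succ j))))) k

def Q1 : Nat := Nat.factorial 52
def Q2 : Nat := Nat.factorial 1935

/-! ### specifications -/

theorem isP_of_prime {K y : ℕ} (hy : Nat.Prime y) (hK : K < y) : isP K.factorial y = true := by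
  have h : Nat.Coprime y K.factorial := hy.coprime_factorial_of_lt hK
  unfold isP
  rw [Nat.beq_eq]
  exact h

theorem prime_of_isP {K y : ℕ} (h : isP K.factorial y = true)
    (h1 : 1 < y) (hy : y < (K + 1) ^ 2) : Nat.Prime y := by
  unfold isP at h
  rw [Nat.beq_eq] at h
  by_contra hnp
  have h2 : Nat.Coprime y K.factorial := h
  have h3 : y.minFac ^ 2 ≤ y := Nat.minFac_sq_le_self (by omega) hnp
  have h4 : y.minFac < K + 1 := by
    by_contra h5
    push Not at h5
    have : (K + 1) ^ 2 ≤ y.minFac ^ 2 := Nat.pow_le_pow_left h5 2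
    omega
  have h5 : (y.minFac).Prime := Nat.minFac_prime (by omega)
  have h6 : y.minFac ∣ K.factorial := (h5.dvd_factorial).2 (by omega)
  have h7 : y.minFac ∣ Nat.gcd y K.factorial := Nat.dvd_gcd (Nat.minFac_dvd y) h6
  rw [h] at h7
  exact h5.one_lt.ne' (Nat.dvd_one.1 h7)

theorem nxt_zero (Q y : ℕ) : nxt Q 0 y = 0 := rfl
theorem nxt_succ (Q n y : ℕ) : nxt Q (n + 1) y = cond (isP Q y) y (nxt Q n (y + 2)) := rfl

theorem nxt_spec (Q : ℕ) : ∀ fuel y0 : ℕ, y0 % 2 = 1 → nxt Q fuel y0 ≠ 0 →
    y0 ≤ nxt Q fuel y0 ∧ nxt Q fuel y0 < y0 + 2 * fuel ∧ nxt Q fuel y0 % 2 = 1 ∧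
    isP Q (nxt Q fuel y0) = true ∧
    ∀ w, w % 2 = 1 → y0 ≤ w → w < nxt Q fuel y0 → isP Q w = false := by
  intro fuel
  induction fuel with
  | zero => intro y0 _ h; exact absurd (nxt_zero Q y0) h
  | succ n ih =>
    intro y0 hodd hne
    rw [nxt_succ] at hne ⊢
    cases hP : isP Q y0 with
    | true =>
      simp only [cond_true]
      refine ⟨le_refl _, by omega, hodd, hP, ?_⟩
      intro w _ h1 h2
      omega
    | false =>
      rw [hP] at hne
      simp only [cond_false] at hne ⊢
      obtain ⟨h1, h2, h3, h4, h5⟩ := ih (y0 + 2) (by omega) hne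
      refine ⟨by omega, by omega, h3, h4, ?_⟩
      intro w hw1 hw2 hw3
      by_cases hw : w = y0
      · rw [hw]; exact hP
      · exact h5 w hw1 (by omega) hw3

theorem count_eq_of_no_prime {x y : ℕ} (hxy : x ≤ y)
    (h : ∀ w, x ≤ w → w < y → ¬ Nat.Prime w) :
    Nat.count Nat.Prime y = Nat.count Nat.Prime x := by
  induction y, hxy using Nat.le_induction with
  | base => rfl
  | succ n hn ih =>
    rw [Nat.count_succ, if_neg (h n hn (Nat.lt_succ_self n)), Nat.add_zero]
    exact ih (fun w h1 h2 => h w h1 (Nat.lt_succ_of_lt h2))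

theorem not_prime_of_even {w : ℕ} (h2 : 2 < w) (h : w % 2 = 0) : ¬ Nat.Prime w := by
  intro hp
  rcases hp.eq_two_or_odd with h' | h' <;> omega

/-- If `x` is prime and the search from `x + 2` returns `y ≠ 0`, then `y` is the next prime. -/
theorem next_prime {K x : ℕ} (hK : 2 ≤ K) (hx : x % 2 = 1) (hKx : K < x)
    (hxp : Nat.Prime x)
    (hb : x + 202 ≤ (K + 1) ^ 2) (hy : nxt K.factorial 100 (x + 2) ≠ 0) :
    Nat.Prime (nxt K.factorial 100 (x + 2)) ∧ x < nxt K.factorial 100 (x + 2) ∧
    nxt K.factorial 100 (x + 2) < x + 202 ∧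
    nxt K.factorial 100 (x + 2) % 2 = 1 ∧
    Nat.count Nat.Prime (nxt K.factorial 100 (x + 2)) = Nat.count Nat.Prime x + 1 := by
  obtain ⟨h1, h2, h3, h4, h5⟩ := nxt_spec K.factorial 100 (x + 2) (by omega) hy
  set y := nxt K.factorial 100 (x + 2) with hydef
  have hyp : Nat.Prime y := prime_of_isP h4 (by omega) (by omega)
  refine ⟨hyp, by omega, by omega, h3, ?_⟩
  rw [count_eq_of_no_prime (x := x + 1) (y := y) (by omega)]
  · rw [Nat.count_succ, if_pos hxp]
  · intro w hw1 hw2 hwp
    rcases Nat.mod_two_eq_zero_or_one w with h0 | h1'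
    · exact not_prime_of_even (by omega) h0 hwp
    · have := h5 w h1' (by omega) hw2
      rw [isP_of_prime hwp (by omega)] at this
      exact Bool.noConfusion this

theorem p_count {x : ℕ} (hx : Nat.Prime x) : p (Nat.count Nat.Prime x) = x :=
  Nat.nth_count hx

theorem a_succ (c : ℕ) : a (c + 2) = a (c + 1) + Int.sign (g (c + 2) - g (c + 1)) := by
  unfold a
  rw [Finset.sum_Icc_succ_top (by omega)]
  rfl

theorem gg (c : ℕ) : g (c + 2) - g (c + 1) = (p (c + 2) : ℤ) + p c - 2 * p (c + 1) := by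
  unfold g
  have h1 : c + 2 - 1 = c + 1 := by omega
  have h2 : c + 1 - 1 = c := by omega
  rw [h1, h2]
  ring

/-- The encoded state at `x`. -/
noncomputable def Enc (x : ℕ) : ℤ :=
  4294967296 * (Nat.count Nat.Prime x : ℤ) +
    ((Nat.count Nat.Prime x : ℤ) + a (Nat.count Nat.Prime x + 1))

theorem code_eq (x y z : ℕ) :
    ((code x y z : ℕ) : ℤ) = 4294967296 + 1 + Int.sign ((z : ℤ) + x - 2 * y) := by
  unfold code
  change ((cond (Nat.blt (z + x) (2 * y)) 4294967296
    (cond (Nat.beq (z + x) (2 * y)) 4294967297 4294967298) : ℕ) : ℤ) = _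
  cases h1 : Nat.blt (z + x) (2 * y) with
  | true =>
    rw [Nat.blt_eq] at h1
    rw [Int.sign_eq_neg_one_of_neg (by omega)]
    simp
  | false =>
    have h1' : ¬ (z + x < 2 * y) := by
      intro h; rw [← Nat.blt_eq, h1] at h; exact Bool.noConfusion h
    cases h2 : Nat.beq (z + x) (2 * y) with
    | true =>
      rw [Nat.beq_eq] at h2
      have : (z : ℤ) + x - 2 * y = 0 := by omega
      rw [this]
      simp
    | false =>
      have h2' : ¬ (z + x = 2 * y) := by
        intro h; rw [← Nat.beq_eq, h2] at h; exact Bool.noConfusion h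
      rw [Int.sign_eq_one_of_pos (by omega)]
      simp

theorem F_step {K x : ℕ} (hK : 2 ≤ K) (hx : x % 2 = 1) (hKx : K < x)
    (hb : x + 404 ≤ (K + 1) ^ 2) (hF : F K.factorial x < poison) :
    Enc (x + 2) = Enc x + (F K.factorial x : ℕ) := by
  have heven : ¬ Nat.Prime (x + 1) := not_prime_of_even (by omega) (by omega)
  have hF' : F K.factorial x = cond (isP K.factorial x)
      (G1 K.factorial x (nxt K.factorial 100 (x + 2))) 0 := rfl
  by_cases hp : Nat.Prime x
  · have hc : Nat.count Nat.Prime (x + 2) = Nat.count Nat.Prime x + 1 := by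
      rw [Nat.count_succ, if_neg heven, Nat.count_succ, if_pos hp]
    have hP := isP_of_prime hp hKx
    rw [hP] at hF'
    simp only [cond_true] at hF'
    rw [hF'] at hF ⊢
    have hy : nxt K.factorial 100 (x + 2) ≠ 0 := by
      intro h
      rw [h] at hF
      exact lt_irrefl _ hF
    obtain ⟨hy1, hy2, hy3, hy4, hy5⟩ := next_prime hK hx hKx hp (by omega) hy
    set y := nxt K.factorial 100 (x + 2) with hydef
    have hG1 : G1 K.factorial x y = cond (Nat.beq y 0) poison
      (G2 x y (nxt K.factorial 100 (y + 2))) := rfl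
    have hb0 : Nat.beq y 0 = false := by
      cases hh : Nat.beq y 0 with
      | true => rw [Nat.beq_eq] at hh; exact absurd hh hy
      | false => rfl
    rw [hb0] at hG1
    simp only [cond_false] at hG1
    rw [hG1] at hF ⊢
    have hz : nxt K.factorial 100 (y + 2) ≠ 0 := by
      intro h
      rw [h] at hF
      exact lt_irrefl _ hF
    obtain ⟨hz1, hz2, hz3, hz4, hz5⟩ := next_prime hK hy4 (by omega) hy1 (by omega) hz
    set z := nxt K.factorial 100 (y + 2) with hzdef
    have hG2 : G2 x y z = cond (Nat.beq z 0) poison (code x y z) := rfl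
    have hb1 : Nat.beq z 0 = false := by
      cases hh : Nat.beq z 0 with
      | true => rw [Nat.beq_eq] at hh; exact absurd hh hz
      | false => rfl
    rw [hb1] at hG2
    simp only [cond_false] at hG2
    rw [hG2, code_eq]
    unfold Enc
    rw [hc]
    have e0 : p (Nat.count Nat.Prime x) = x := p_count hp
    have e1 : p (Nat.count Nat.Prime x + 1) = y := by rw [← hy5]; exact p_count hy1
    have e2 : p (Nat.count Nat.Prime x + 2) = z := by
      have : Nat.count Nat.Prime x + 2 = Nat.count Nat.Prime z := by omega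
      rw [this]; exact p_count hz1
    rw [a_succ, gg, e0, e1, e2]
    push_cast
    ring
  · have hc : Nat.count Nat.Prime (x + 2) = Nat.count Nat.Prime x := by
      rw [Nat.count_succ, if_neg heven, Nat.count_succ, if_neg hp, Nat.add_zero]
    have hP : isP K.factorial x = false := by
      cases hh : isP K.factorial x with
      | true => exact absurd (prime_of_isP hh (by omega) (by omega)) hp
      | false => rfl
    rw [hP] at hF'
    simp only [cond_false] at hF'
    rw [hF']
    unfold Enc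
    rw [hc]
    simp

theorem S_zero (Q x : ℕ) : S Q 0 x = F Q x := rfl
theorem S_succ (Q k x : ℕ) : S Q (k + 1) x = S Q k x + S Q k (x + 2 ^ (k + 1)) := rfl

theorem S_step {K : ℕ} (hK : 2 ≤ K) : ∀ k x : ℕ, x % 2 = 1 → K < x →
    x + 2 ^ (k + 1) + 404 ≤ (K + 1) ^ 2 → S K.factorial k x < poison →
    Enc (x + 2 ^ (k + 1)) = Enc x + (S K.factorial k x : ℕ) := by
  intro k
  induction k with
  | zero =>
    intro x hx hKx hb hS
    rw [S_zero] at hS ⊢
    exact F_step hK hx hKx (by omega) hS
  | succ k ih =>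
    intro x hx hKx hb hS
    rw [S_succ] at hS ⊢
    have e : 2 ^ (k + 1 + 1) = 2 ^ (k + 1) + 2 ^ (k + 1) := by ring
    have h2 : 2 ^ (k + 1) % 2 = 0 := by
      rw [pow_succ]; omega
    rw [e] at hb ⊢
    generalize 2 ^ (k + 1) = m at *
    have h1 := ih x hx hKx (by omega) (by omega)
    have h3 := ih (x + m) (by omega) (by omega) (by omega) (by omega)
    rw [← add_assoc, h3, h1]
    push_cast
    ring

/-- chaining lemma with the value of the block as computed by the kernel. -/
theorem S_chain {K k x y v : ℕ} {e : ℤ} (hK : 2 ≤ K) (hx : x % 2 = 1) (hKx : K < x)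
    (hy : y = x + 2 ^ (k + 1)) (hb : y + 404 ≤ (K + 1) ^ 2)
    (hS : Nat.beq (S K.factorial k x) v = true) (hv : v < poison) (he : Enc x = e) :
    Enc y = e + (v : ℤ) := by
  rw [Nat.beq_eq] at hS
  subst hy
  rw [S_step hK k x hx hKx hb (by rw [hS]; exact hv), hS, he]

theorem abs_a_le (n : ℕ) : |a n| ≤ n := by
  unfold a
  refine (Finset.abs_sum_le_sum_abs _ _).trans ?_
  have h : ∀ k ∈ Finset.Icc 2 n, |Int.sign (g k - g (k - 1))| ≤ 1 := by
    intro k _
    rcases lt_trichotomy (g k - g (k - 1)) 0 with h | h | h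
    · rw [Int.sign_eq_neg_one_of_neg h]; simp
    · rw [h]; simp
    · rw [Int.sign_eq_one_of_pos h]; simp
  refine (Finset.sum_le_sum h).trans ?_
  simp

end Pool.Agent.PrimeScore
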