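import Pool.Agent.PrimeScore.Basic

namespace Pool.Agent.PrimeScore

set_option maxRecDepth 100000

theorem c0 : Nat.beq (S (Nat.factorial 52) 10 53) 1297080123702 = true := by decide +kernel

theorem c1 : Nat.beq (S (Nat.factorial 1935) 16 2101) 52020643901324 = true := by decide +kernel

theorem c2 : Nat.beq (S (Nat.factorial 1935) 16 133173) 46132243737062 = true := by decide +kernel

theorem c3 : Nat.beq (S (Nat.factorial 1935) 16 264245) 44379897079880 = true := by decide +kernel

theorem c4 : Nat.beq (S (Nat.factorial 1935) 16 395317) 43160126367530 = true := by decide +kernel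

end Pool.Agent.PrimeScore
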