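import Pool.Agent.PrimeScore.Basic

namespace Pool.Agent.PrimeScore

set_option maxRecDepth 100000

theorem c5 : Nat.beq (S (Nat.factorial 1935) 16 526389) 42189463758456 = true := by decide +kernel

theorem c6 : Nat.beq (S (Nat.factorial 1935) 16 657461) 41785736832540 = true := by decide +kernel

theorem c7 : Nat.beq (S (Nat.factorial 1935) 16 788533) 41235981018525 = true := by decide +kernel

theorem c8 : Nat.beq (S (Nat.factorial 1935) 16 919605) 40673340302583 = true := by decide +kernel

end Pool.Agent.PrimeScore
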