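import Pool.Agent.PrimeScore.Basic

namespace Pool.Agent.PrimeScore

set_option maxRecDepth 100000

theorem c9 : Nat.beq (S (Nat.factorial 1935) 16 1050677) 40587440956707 = true := by decide +kernel

theorem c10 : Nat.beq (S (Nat.factorial 1935) 16 1181749) 39977555600470 = true := by decide +kernel

theorem c11 : Nat.beq (S (Nat.factorial 1935) 16 1312821) 39788577039397 = true := by decide +kernel

theorem c12 : Nat.beq (S (Nat.factorial 1935) 16 1443893) 39578123641782 = true := by decide +kernel

end Pool.Agent.PrimeScore
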