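import Pool.Agent.PrimeScore.Basic

namespace Pool.Agent.PrimeScore

set_option maxRecDepth 100000

theorem c13 : Nat.beq (S (Nat.factorial 1935) 16 1574965) 39273180963703 = true := by decide +kernel

theorem c14 : Nat.beq (S (Nat.factorial 1935) 16 1706037) 39062727566166 = true := by decide +kernel

theorem c15 : Nat.beq (S (Nat.factorial 1935) 16 1837109) 39049842664294 = true := by decide +kernel

theorem c16 : Nat.beq (S (Nat.factorial 1935) 16 1968181) 38706245280529 = true := by decide +kernel

end Pool.Agent.PrimeScore
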