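import Pool.Agent.PrimeScore.Basic

namespace Pool.Agent.PrimeScore

set_option maxRecDepth 100000

theorem c17 : Nat.beq (S (Nat.factorial 1935) 16 2099253) 38590281163546 = true := by decide +kernel

theorem c18 : Nat.beq (S (Nat.factorial 1935) 16 2230325) 38281043518144 = true := by decide +kernel

theorem c19 : Nat.beq (S (Nat.factorial 1935) 16 2361397) 38259568681627 = true := by decide +kernel

theorem c20 : Nat.beq (S (Nat.factorial 1935) 16 2492469) 38195144172124 = true := by decide +kernel

end Pool.Agent.PrimeScore
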