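import Pool.Agent.PrimeScore.Basic

namespace Pool.Agent.PrimeScore

set_option maxRecDepth 100000

theorem c21 : Nat.beq (S (Nat.factorial 1935) 16 2623541) 37993280709323 = true := by decide +kernel

theorem c22 : Nat.beq (S (Nat.factorial 1935) 16 2754613) 38036230382218 = true := by decide +kernel

theorem c23 : Nat.beq (S (Nat.factorial 1935) 16 2885685) 37714107834983 = true := by decide +kernel

theorem c24 : Nat.beq (S (Nat.factorial 1935) 16 3016757) 37568078946885 = true := by decide +kernel

end Pool.Agent.PrimeScore
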