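import Pool.Agent.PrimeScore.Basic

namespace Pool.Agent.PrimeScore

set_option maxRecDepth 100000

theorem c25 : Nat.beq (S (Nat.factorial 1935) 16 3147829) 37980395807368 = true := by decide +kernel

theorem c26 : Nat.beq (S (Nat.factorial 1935) 16 3278901) 37310380909046 = true := by decide +kernel

theorem c27 : Nat.beq (S (Nat.factorial 1935) 16 3409973) 36953898623448 = true := by decide +kernel

theorem c28 : Nat.beq (S (Nat.factorial 1935) 15 3541045) 18691697676648 = true := by decide +kernel

theorem c29 : Nat.beq (S (Nat.factorial 1935) 14 3606581) 9483287791791 = true := by decide +kernel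

theorem c30 : Nat.beq (S (Nat.factorial 1935) 13 3639349) 4488240825355 = true := by decide +kernel

theorem c31 : Nat.beq (S (Nat.factorial 1935) 12 3655733) 2357937046060 = true := by decide +kernel

theorem c32 : Nat.beq (S (Nat.factorial 1935) 10 3663925) 592705486986 = true := by decide +kernel

theorem c33 : Nat.beq (S (Nat.factorial 1935) 8 3665973) 154618822702 = true := by decide +kernel

theorem c34 : Nat.beq (S (Nat.factorial 1935) 4 3666485) 4294967296 = true := by decide +kernel

theorem c35 : Nat.beq (S (Nat.factorial 1935) 3 3666517) 8589934596 = true := by decide +kernel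

end Pool.Agent.PrimeScore
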